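import Pool.Agent.Y714.KI.Stm

/-! KI-STEP (job 11064 of helper714, by helper891). -/

set_option autoImplicit false

namespace Pool.Agent.Y891.KI

open Pool.Agent.Y714.KF (FI sp nm)
open Pool.Agent.Y714.KI
open NumberField FractionalIdeal Module Finset
open scoped nonZeroDivisors

variable {F : Type} [Field F] [NumberField F]

theorem sp_le_iff {x : F} {I : FI F} : sp x ≤ I ↔ x ∈ I := spanSingleton_le_iff_mem

theorem int_mul_mem {I : FI F} {x : F} (r : 𝓞 F) (hx : x ∈ I) : (r : F) * x ∈ I := by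
  have := (I : Submodule (𝓞 F) F).smul_mem r (show x ∈ (I : Submodule (𝓞 F) F) from hx)
  rw [Algebra.smul_def] at this
  exact this

theorem add_mem' {I : FI F} {x y : F} (hx : x ∈ I) (hy : y ∈ I) : x + y ∈ I :=
  (I : Submodule (𝓞 F) F).add_mem hx hy

theorem neg_mem' {I : FI F} {x : F} (hx : x ∈ I) : -x ∈ I :=
  (I : Submodule (𝓞 F) F).neg_mem hx

theorem cX_le {ι : Type} {X : ι → F × F} {j : ι} {I : FI F} :
    cX X j ≤ I ↔ (X j).1 ∈ I ∧ (X j).2 ∈ I := by
  rw [cX, ← sup_eq_add, sup_le_iff, sp_le_iff, sp_le_iff]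

theorem core (v : Ideal (𝓞 F)) (hv : v.IsPrime) (hv0 : v ≠ ⊥) (D : ℕ) {ι : Type} [Fintype ι]
    (X : ι → F × F) (i₀ : ι) (hx : (X i₀).1 ∉ (v : FI F) * cX X i₀) (hc : cX X i₀ ≠ 0) (p : F)
    (hp : p ∈ ((v ^ D : Ideal (𝓞 F)) : FI F)) :
    ∃ r : F, (∀ j, cX (gX (-r) 1 p 0 X) j ≤ cX X j) ∧
      ∀ j, bX X i₀ j ∈ cX X i₀ * cX X j * ((v ^ D : Ideal (𝓞 F)) : FI F) →
        cX (gX (-r) 1 p 0 X) j ≤ ((v ^ D : Ideal (𝓞 F)) : FI F) * cX X j := by
  set V : FI F := ((v ^ D : Ideal (𝓞 F)) : FI F) with hV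
  set c := cX X i₀ with hcdef
  set x := (X i₀).1 with hxdef
  set y := (X i₀).2 with hydef
  have hxc : x ∈ c := (cX_le.1 (le_refl (cX X i₀))).1
  have hyc : y ∈ c := (cX_le.1 (le_refl (cX X i₀))).2
  -- the ideal is coprime to `v`
  have h1 : sp x + V * c = c := by
    have hJ : c⁻¹ * sp x ≤ 1 := by
      calc c⁻¹ * sp x ≤ c⁻¹ * c := by
            have := sp_le_iff.2 hxc
            gcongr
        _ = 1 := inv_mul_cancel₀ hc
    obtain ⟨J0, hJ0⟩ := le_one_iff_exists_coeIdeal.1 hJ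
    have hnle : ¬ J0 ≤ v := by
      intro hle
      apply hx
      rw [← sp_le_iff]
      have h2 : (J0 : FI F) ≤ (v : FI F) := (coeIdeal_le_coeIdeal F).2 hle
      rw [hJ0] at h2
      calc sp x = c⁻¹ * sp x * c := by
            rw [mul_comm (c⁻¹), mul_assoc, inv_mul_cancel₀ hc, mul_one]
        _ ≤ (v : FI F) * c := by gcongr
    have hmax : v.IsMaximal := hv.isMaximal hv0
    have h3 : J0 ⊔ v = ⊤ := by
      refine hmax.out.2 _ (lt_of_le_of_ne le_sup_right fun h => hnle ?_)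
      rw [h]
      exact le_sup_left
    have h4 : IsCoprime J0 (v ^ D) := (Ideal.isCoprime_iff_sup_eq.2 h3).pow_right
    have h5 : J0 ⊔ v ^ D = ⊤ := Ideal.isCoprime_iff_sup_eq.1 h4
    have h6 : (J0 : FI F) + V = 1 := by
      rw [hV, ← coeIdeal_sup, h5, coeIdeal_top]
    rw [hJ0] at h6
    have h7 := congrArg (· * c) h6
    simp only [add_mul, one_mul] at h7
    rw [mul_comm (c⁻¹), mul_assoc, inv_mul_cancel₀ hc, mul_one] at h7
    exact h7
  have hy1 : y ∈ sp x + V * c := by rw [h1]; exact hyc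
  obtain ⟨x', hx', z, hz, hxz⟩ := (mem_add _ _ _).1 hy1
  obtain ⟨r, rfl⟩ := (mem_spanSingleton _).1 hx'
  have hrx : (r : F) * x + z = y := by
    rw [← hxz, Algebra.smul_def]
  have hp1 : p ∈ (1 : FI F) := (coeIdeal_le_one (I := v ^ D)) hp
  obtain ⟨p0, hp0⟩ := (mem_one_iff _).1 hp1
  refine ⟨(r : F), fun j => ?_, fun j hj => ?_⟩
  · obtain ⟨a1, a2⟩ := cX_le.1 (le_refl (cX X j))
    rw [cX_le]
    simp only [gX]
    constructor
    · refine add_mem' ?_ (by simpa using a2)
      have := neg_mem' (int_mul_mem r a1)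
      rwa [neg_mul]
    · rw [zero_mul, add_zero, ← hp0]
      exact int_mul_mem p0 a1
  · obtain ⟨a1, a2⟩ := cX_le.1 (le_refl (cX X j))
    rw [cX_le]
    simp only [gX]
    constructor
    · set t := -(r : F) * (X j).1 + 1 * (X j).2 with ht
      have htc : t ∈ cX X j := by
        refine add_mem' ?_ (by simpa using a2)
        have := neg_mem' (int_mul_mem r a1)
        rwa [neg_mul]
      have h2 : x * t = bX X i₀ j + z * (X j).1 := by
        rw [ht, bX, ← hxdef, ← hydef, ← hrx]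
        ring
      have h3 : z * (X j).1 ∈ V * c * cX X j := mul_mem_mul hz a1
      have h4 : x * t ∈ c * (V * cX X j) := by
        rw [h2]
        refine add_mem' ?_ ?_
        · rwa [show c * (V * cX X j) = c * cX X j * V by ring]
        · rwa [show c * (V * cX X j) = V * c * cX X j by ring]
      have h5 : c * sp t ≤ c * (V * cX X j) := by
        calc c * sp t = (sp x + V * c) * sp t := by rw [h1]
          _ = sp (x * t) + V * c * sp t := by
            rw [add_mul, spanSingleton_mul_spanSingleton]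
          _ ≤ c * (V * cX X j) := by
            rw [← sup_eq_add, sup_le_iff]
            refine ⟨sp_le_iff.2 h4, ?_⟩
            calc V * c * sp t ≤ V * c * cX X j := by
                  have := sp_le_iff.2 htc
                  gcongr
              _ = c * (V * cX X j) := by ring
      have h6 : c⁻¹ * (c * sp t) ≤ c⁻¹ * (c * (V * cX X j)) := by gcongr
      rw [← mul_assoc, ← mul_assoc, inv_mul_cancel₀ hc, one_mul, one_mul] at h6
      exact sp_le_iff.1 h6
    · rw [zero_mul, add_zero]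
      exact mul_mem_mul hp a1

theorem step : S_STEP := by
  intro F _ _
  set C : ℝ := (4 / Real.pi) ^ InfinitePlace.nrComplexPlaces F *
    (finrank ℚ F).factorial / (finrank ℚ F) ^ (finrank ℚ F) * Real.sqrt |(discr F : ℝ)| with hC
  have hn : 0 < finrank ℚ F := finrank_pos
  have hC0 : 0 < C := by
    have h1 : (0 : ℝ) < |(discr F : ℝ)| := abs_pos.2 (by exact_mod_cast discr_ne_zero F)
    have h2 := Real.sqrt_pos.2 h1
    have h3 := Real.pi_pos
    have h4 : (0 : ℝ) < (finrank ℚ F : ℝ) := by exact_mod_cast hn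
    positivity
  refine ⟨C, hC0, ?_⟩
  intro v hv hv0 D ι _ X i₀ hX
  have hV0 : ((v ^ D : Ideal (𝓞 F)) : FI F) ≠ 0 := by
    rw [Ne, coeIdeal_eq_zero]
    exact pow_ne_zero D hv0
  obtain ⟨p, hp, hpne, hpb⟩ :=
    exists_ne_zero_mem_ideal_of_norm_le_mul_sqrt_discr F (Units.mk0 _ hV0)
  rw [Units.val_mk0] at hp hpb
  have hbd : (|(Algebra.norm ℚ p : ℝ)|) ≤ C * ((Ideal.absNorm v : ℕ) : ℝ) ^ D := by
    rw [coeIdeal_absNorm, map_pow] at hpb
    push_cast at hpb
    rw [hC]
    refine hpb.trans (le_of_eq ?_)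
    ring
  have hc : cX X i₀ ≠ 0 := by
    intro h0
    obtain ⟨a1, a2⟩ := cX_le.1 (le_refl (cX X i₀))
    rw [h0, mem_zero_iff] at a1 a2
    rcases hX with h | h
    · exact h a1
    · exact h a2
  have hor : (X i₀).1 ∉ (v : FI F) * cX X i₀ ∨ (X i₀).2 ∉ (v : FI F) * cX X i₀ := by
    by_contra hcon
    push Not at hcon
    have h1 : cX X i₀ ≤ (v : FI F) * cX X i₀ := cX_le.2 hcon
    have h2 : cX X i₀ * (cX X i₀)⁻¹ ≤ (v : FI F) * cX X i₀ * (cX X i₀)⁻¹ := by gcongr
    rw [mul_assoc, mul_inv_cancel₀ hc, mul_one] at h2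
    have h3 : ((⊤ : Ideal (𝓞 F)) : FI F) ≤ (v : FI F) := by
      rw [coeIdeal_top]
      exact h2
    exact hv.ne_top (top_le_iff.1 ((coeIdeal_le_coeIdeal F).1 h3))
  rcases hor with hx | hy
  · obtain ⟨r, h1, h2⟩ := core v hv hv0 D X i₀ hx hc p hp
    refine ⟨-r, 1, p, 0, ?_, ?_, h1, h2⟩
    · rw [mul_zero, one_mul, zero_sub]
      exact neg_ne_zero.2 hpne
    · have e : -r * 0 - 1 * p = -1 * p := by ring
      rw [e, map_mul]
      have e2 : |((Algebra.norm ℚ (-1 : F) * Algebra.norm ℚ p : ℚ) : ℝ)| =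
          |(Algebra.norm ℚ p : ℝ)| := by
        push_cast
        rw [abs_mul]
        have e3 : |((Algebra.norm ℚ (-1 : F) : ℚ) : ℝ)| = 1 := by
          have e4 : Algebra.norm ℚ (-1 : F) * Algebra.norm ℚ (-1 : F) = 1 := by
            rw [← map_mul]
            simp
          have e5 : ((Algebra.norm ℚ (-1 : F) : ℚ) : ℝ) * ((Algebra.norm ℚ (-1 : F) : ℚ) : ℝ) = 1 := by
            exact_mod_cast e4
          rcases mul_self_eq_one_iff.1 e5 with h | h <;> rw [h] <;> simp
        rw [e3, one_mul]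
      rw [e2]
      exact hbd
  · set X' : ι → F × F := fun j => ((X j).2, (X j).1) with hX'
    have e1 : ∀ j, cX X' j = cX X j := fun j => by
      rw [cX, cX, add_comm]
    have e2 : ∀ j, bX X' i₀ j = - bX X i₀ j := fun j => by
      rw [bX, bX]
      ring
    obtain ⟨r, h1, h2⟩ := core v hv hv0 D X' i₀ (by rw [e1]; exact hy) (by rw [e1]; exact hc) p hp
    have e3 : gX (-r) 1 p 0 X' = gX 1 (-r) 0 p X := by
      funext j
      simp only [gX, hX']
      rw [add_comm, add_comm (p * _)]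
    rw [e3] at h1 h2
    refine ⟨1, -r, 0, p, ?_, ?_, ?_, ?_⟩
    · rw [mul_zero, one_mul, sub_zero]
      exact hpne
    · rw [mul_zero, one_mul, sub_zero]
      exact hbd
    · intro j
      have := h1 j
      rwa [e1] at this
    · intro j hj
      have := h2 j (by
        rw [e1, e1, e2]
        exact neg_mem' hj)
      rwa [e1] at this

end Pool.Agent.Y891.KI
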